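import Pool.Agent.Y943.NG.Stm

/-! # Job NG-CONST: the field of constants (helper26) -/

set_option autoImplicit false

namespace Pool.Agent.Y26.NG

open Pool.Agent.Y943.NG

theorem const : t_CONST := by
  intro k L _ _ _ _ _ _
  have : Normal (RatFunc k)
      (IntermediateField.adjoin (RatFunc k) {y : L | IsAlgebraic k y}) := by
    rw [IntermediateField.normal_iff_forall_map_le]
    intro σ
    rw [IntermediateField.adjoin_map, IntermediateField.adjoin_le_iff]
    rintro _ ⟨y, hy, rfl⟩
    apply IntermediateField.subset_adjoin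
    exact IsAlgebraic.algHom (σ.restrictScalars k) hy
  exact { }

theorem alg : t_ALG := by
  intro k _ y hy
  by_contra h
  refine RatFunc.transcendental_of_ne_C (K := k) (f := y) ?_ hy
  rintro ⟨c, hc⟩
  exact h ⟨c, by rw [hc, RatFunc.algebraMap_eq_C]⟩

end Pool.Agent.Y26.NG
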